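import Pool.Agent.X220.IZ.Main

/-!
# Elements of every odd order in the class groups of the fields `ℚ(√(d + x ^ 2))`, `0 ≤ x ≤ n`

Iizuka's conjecture asks for infinitely many `d` for which the class numbers of `ℚ(√d), ℚ(√(d + 1)), …, ℚ(√(d + n))`
are all divisible by `p`. Here:

(1) For every `n` and every odd `m` there are infinitely many integers `d` for which ALL the fields
`ℚ(√d), ℚ(√(d + 1)), ℚ(√(d + 4)), ℚ(√(d + 9)), …, ℚ(√(d + n ^ 2))` are imaginary quadratic and have a class of the exact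
order `m`.

(2) More precisely, let `m` be odd, `N > m ^ 2` a multiple of `3`, `M = 4 N ^ m - 1`, `d = - 4 M ^ m`. Then this holds for
`ℚ(√d)` and for all the fields `ℚ(√(d + x ^ 2))` with `x ≥ 1` prime to `M` and `x ^ 2 m ^ 2 < M`; so the number of the
shifts grows like a power of `|d|`.

(3) In general, if `m` is odd, `x ≥ 1` is prime to `M`, `x ^ 2 m ^ 2 < M`, and `3` does not divide `x ^ 2 - 4 M ^ m`, then
`ℚ(√(x ^ 2 - 4 M ^ m))` has an ideal of norm `M` whose class has the exact order `m`. There is no condition on the square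
part of `x ^ 2 - 4 M ^ m`.

The proof of (3): if the class has a smaller order, the integer `α = (x + √(x ^ 2 - 4 M ^ m)) / 2` is a `q`-th power `γ ^ q`
for a prime `q` dividing `m`. If `t` and `c` are the trace and the norm of `γ`, then `x`, the trace of `γ ^ q`, is up to the
sign `t` times an integer which is at least `c ^ ((q - 1) / 2)` as long as `t ^ 2 q ^ 2 < c`; hence `t` divides `x`, and
this is impossible if `M` is large compared to `x m`.
-/

set_option autoImplicit false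

namespace Pool.Agent.Results.MP_3650db_nt.SquareShifts

open NumberField

/-- the class group of `K` contains an element of order `m` -/
def HasClass (K : Type) [Field K] [NumberField K] (m : ℕ) : Prop := ∃ c : ClassGroup (𝓞 K), orderOf c = m

/-- `K` has a nonzero ideal of norm `M` whose class has the exact order `m` -/
def HasIdeal (K : Type) [Field K] [NumberField K] (M m : ℕ) : Prop :=
  ∃ I : nonZeroDivisors (Ideal (𝓞 K)), Ideal.absNorm (I : Ideal (𝓞 K)) = M ∧ orderOf (ClassGroup.mk0 I) = m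

/-- `e` is negative, and the class group of every quadratic number field which contains a square root of `e` (that is, of
`ℚ(√e)`) contains an element of order `m` -/
def HasElement (e : ℤ) (m : ℕ) : Prop :=
  e < 0 ∧ ∀ (K : Type) [Field K] [NumberField K], Module.finrank ℚ K = 2 → (∃ y : K, y ^ 2 = (e : K)) → HasClass K m

/-- `e` is negative, and every quadratic number field which contains a square root of `e` (that is, `ℚ(√e)`) has a nonzero
ideal of norm `M` whose class has the exact order `m` -/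
def NormClass (e : ℤ) (M m : ℕ) : Prop :=
  e < 0 ∧ ∀ (K : Type) [Field K] [NumberField K], Module.finrank ℚ K = 2 → (∃ y : K, y ^ 2 = (e : K)) → HasIdeal K M m

/-- `x ^ 2 - 4 M ^ m` -/
def num (x M m : ℕ) : ℤ := (x : ℤ) ^ 2 - 4 * (M : ℤ) ^ m

/-- `x` is prime to `M`, and `x ^ 2 m ^ 2 < M` -/
def Small (x M m : ℕ) : Prop := Nat.Coprime x M ∧ x ^ 2 * m ^ 2 < M

lemma norm_class {x M m : ℕ} (hx : 1 ≤ x) (hm : Odd m) (hM : x ^ 2 * m ^ 2 < M) (hcop : Nat.Coprime x M)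
    (h3 : ¬ (3 : ℤ) ∣ (x : ℤ) ^ 2 - 4 * (M : ℤ) ^ m) : NormClass ((x : ℤ) ^ 2 - 4 * (M : ℤ) ^ m) M m := by
  refine ⟨?_, fun K _ _ h2 ⟨y, hy⟩ => Pool.Agent.X220.IZ.order_exact h2 hx hm hM hcop h3 hy⟩
  have hm1 : 1 ≤ m := hm.pos
  have hMx : x ^ 2 < M := by
    refine lt_of_le_of_lt ?_ hM
    exact Nat.le_mul_of_pos_right _ (by positivity)
  have hMm : M ≤ M ^ m := Nat.le_self_pow (by omega) M
  have h4 : (x : ℤ) ^ 2 < M := by exact_mod_cast hMx
  have h5 : (M : ℤ) ≤ (M : ℤ) ^ m := by exact_mod_cast hMm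
  have h6 : (0 : ℤ) ≤ M := Int.natCast_nonneg M
  linarith

lemma has_of_norm {e : ℤ} {M m : ℕ} (h : NormClass e M m) : HasElement e m :=
  ⟨h.1, fun K _ _ h2 hy => by
    obtain ⟨I, -, hI⟩ := h.2 K h2 hy
    exact ⟨_, hI⟩⟩

lemma mod3 {x M m : ℕ} (hm : Odd m) (hM : M % 3 = 2) : ¬ (3 : ℤ) ∣ (x : ℤ) ^ 2 - 4 * (M : ℤ) ^ m := by
  obtain ⟨k, rfl⟩ := hm
  have h1 : ((M : ℤ)) ^ (2 * k + 1) % 3 = 2 := by
    have e : (M : ℤ) % 3 = 2 := by exact_mod_cast hM
    have h2 : ((M : ℤ) ^ 2) % 3 = 1 := by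
      rw [pow_two, Int.mul_emod, e]
      norm_num
    have h4 : ∀ j : ℕ, ((M : ℤ) ^ 2) ^ j % 3 = 1 := by
      intro j
      induction j with
      | zero => norm_num
      | succ j ih => rw [pow_succ, Int.mul_emod, ih, h2]; norm_num
    rw [pow_succ, pow_mul, Int.mul_emod, h4, e]
    norm_num
  have h5 : (x : ℤ) ^ 2 % 3 = 0 ∨ (x : ℤ) ^ 2 % 3 = 1 := by
    have : (x : ℤ) % 3 = 0 ∨ (x : ℤ) % 3 = 1 ∨ (x : ℤ) % 3 = 2 := by omega
    rcases this with h | h | h
    · left; rw [pow_two, Int.mul_emod, h]; norm_num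
    · right; rw [pow_two, Int.mul_emod, h]; norm_num
    · right; rw [pow_two, Int.mul_emod, h]; norm_num
  omega

/-- the shift `0` -/
lemma zero_shift {N m : ℕ} (hm : Odd m) (hN3 : 3 ∣ N) (hN : m ^ 2 < N) (K : Type) [Field K] [NumberField K]
    (h2 : Module.finrank ℚ K = 2) (hy : ∃ y : K, y ^ 2 = ((-4 * (4 * (N : ℤ) ^ m - 1) ^ m : ℤ) : K)) :
    ∃ c : ClassGroup (𝓞 K), orderOf c = m := by
  obtain ⟨y, hy⟩ := hy
  have hm1 : 1 ≤ m := hm.pos
  have hN0 : 0 < N := by omega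
  obtain ⟨D, hD⟩ : ∃ D : ℤ, D = 4 * (N : ℤ) ^ m - 1 := ⟨_, rfl⟩
  have hDpos : 0 < D := by
    have : (0 : ℤ) < (N : ℤ) ^ m := by positivity
    omega
  have hDK : (D : K) ≠ 0 := by exact_mod_cast hDpos.ne'
  obtain ⟨k, hk⟩ := hm
  have hy' : (y / (2 * (D : K) ^ k)) ^ 2 = ((((1 : ℕ) : ℤ) ^ 2 - 4 * (N : ℤ) ^ m : ℤ) : K) := by
    have e1 : (((1 : ℕ) : ℤ) ^ 2 - 4 * (N : ℤ) ^ m : ℤ) = -D := by rw [hD]; push_cast; ring
    rw [e1, div_pow, hy, ← hD]
    push_cast
    have e2 : (D : K) ^ m = (D : K) ^ (2 * k + 1) := by rw [← hk]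
    rw [e2, div_eq_iff (pow_ne_zero 2 (mul_ne_zero two_ne_zero (pow_ne_zero k hDK)))]
    ring
  have h3 : ¬ (3 : ℤ) ∣ ((1 : ℕ) : ℤ) ^ 2 - 4 * (N : ℤ) ^ m := by
    have h4 : (3 : ℤ) ∣ (N : ℤ) ^ m := dvd_pow (by exact_mod_cast hN3) (by omega)
    obtain ⟨w, hw⟩ := h4
    rw [hw]
    push_cast
    omega
  obtain ⟨I, -, hI⟩ := Pool.Agent.X220.IZ.order_exact h2 (x := 1) (M := N) (m := m) le_rfl ⟨k, hk⟩ (by simpa using hN)
    (Nat.coprime_one_left N) h3 hy'
  exact ⟨_, hI⟩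

/-- the explicit values of `d` -/
lemma explicit {m N : ℕ} (hm : Odd m) (hN3 : 3 ∣ N) (hN : m ^ 2 < N) :
    HasElement (-4 * (4 * (N : ℤ) ^ m - 1) ^ m) m ∧ ∀ x : ℕ, 1 ≤ x → Nat.Coprime x (4 * N ^ m - 1) →
      x ^ 2 * m ^ 2 < 4 * N ^ m - 1 → HasElement (-4 * (4 * (N : ℤ) ^ m - 1) ^ m + (x : ℤ) ^ 2) m := by
  have hm1 : 1 ≤ m := hm.pos
  have hN0 : 0 < N := by omega
  have hNm : 0 < N ^ m := by positivity
  have hNmZ : (0 : ℤ) < (N : ℤ) ^ m := by positivity
  have hD : (0 : ℤ) < 4 * (N : ℤ) ^ m - 1 := by omega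
  have hDm : (0 : ℤ) < (4 * (N : ℤ) ^ m - 1) ^ m := by positivity
  refine ⟨⟨by omega, fun K _ _ h2 hy => zero_shift hm hN3 hN K h2 hy⟩, fun x hx hcop hlt => ?_⟩
  have hmod : (4 * N ^ m - 1) % 3 = 2 := by
    obtain ⟨w, hw⟩ : 3 ∣ N ^ m := dvd_pow hN3 (by omega)
    omega
  have h := has_of_norm (norm_class hx hm hlt hcop (mod3 hm hmod))
  have e : (((4 * N ^ m - 1 : ℕ) : ℤ)) = 4 * (N : ℤ) ^ m - 1 := by
    rw [Nat.cast_sub (by omega)]
    push_cast
    ring
  rw [e] at h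
  have e2 : -4 * (4 * (N : ℤ) ^ m - 1) ^ m + (x : ℤ) ^ 2 = (x : ℤ) ^ 2 - 4 * (4 * (N : ℤ) ^ m - 1) ^ m := by ring
  rw [e2]
  exact h

theorem result :
    -- infinitely many tuples
    (∀ n m : ℕ, Odd m → {d : ℤ | ∀ x : ℕ, x ≤ n → HasElement (d + (x : ℤ) ^ 2) m}.Infinite) ∧
    -- explicit values of `d = - 4 M ^ m`, and a growing number of shifts; here `M = 4 N ^ m - 1`
    (∀ m N x : ℕ, Odd m → 3 ∣ N → m ^ 2 < N → x = 0 ∨ Small x (4 * N ^ m - 1) m →
      HasElement (num x (4 * N ^ m - 1) m) m) ∧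
    -- the fields with the square root of `x ^ 2 - 4 M ^ m`
    (∀ x M m : ℕ, 1 ≤ x → Odd m → Small x M m → ¬ 3 ∣ num x M m → NormClass (num x M m) M m) := by
  refine ⟨fun n m hm => ?_, fun m N x hm hN3 hN hx => ?_,
    fun x M m hx hm hs h3 => norm_class hx hm hs.2 hs.1 h3⟩
  rotate_left
  · have hN1 : 1 ≤ N ^ m := Nat.one_le_pow _ _ (by omega)
    have e : (((4 * N ^ m - 1 : ℕ) : ℤ)) = 4 * (N : ℤ) ^ m - 1 := by
      rw [Nat.cast_sub (by omega)]
      push_cast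
      ring
    have e2 : num x (4 * N ^ m - 1) m = -4 * (4 * (N : ℤ) ^ m - 1) ^ m + (x : ℤ) ^ 2 := by
      simp only [num]
      rw [e]
      ring
    obtain ⟨h1, h2⟩ := explicit hm hN3 hN
    rw [e2]
    rcases Nat.eq_zero_or_pos x with h0 | h0
    · rw [h0]
      simpa using h1
    · rcases hx with h | h
      · omega
      · exact h2 x h0 h.1 h.2
  have hm1 : 1 ≤ m := hm.pos
  obtain ⟨B, hB⟩ : ∃ B : ℕ, B = (n ^ 2 + 1) * (m ^ 2 + 1) := ⟨_, rfl⟩
  have hf : 0 < n.factorial := Nat.factorial_pos n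
  refine Set.infinite_of_injective_forall_mem
    (f := fun t : ℕ => -4 * (4 * ((3 * n.factorial * (t + B) : ℕ) : ℤ) ^ m - 1) ^ m) ?_ ?_
  · intro t s hts
    simp only at hts
    have h1 : (4 * ((3 * n.factorial * (t + B) : ℕ) : ℤ) ^ m - 1) ^ m =
        (4 * ((3 * n.factorial * (s + B) : ℕ) : ℤ) ^ m - 1) ^ m := by linarith
    have h2 := (Odd.strictMono_pow (R := ℤ) hm).injective h1
    have h3 : ((3 * n.factorial * (t + B) : ℕ) : ℤ) ^ m = ((3 * n.factorial * (s + B) : ℕ) : ℤ) ^ m := by linarith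
    have h4 := (Odd.strictMono_pow (R := ℤ) hm).injective h3
    have h5 : 3 * n.factorial * (t + B) = 3 * n.factorial * (s + B) := by exact_mod_cast h4
    have h6 := Nat.eq_of_mul_eq_mul_left (by positivity) h5
    omega
  · intro t
    obtain ⟨N, hN⟩ : ∃ N : ℕ, N = 3 * n.factorial * (t + B) := ⟨_, rfl⟩
    have hBN : B ≤ N := by
      rw [hN]
      calc B ≤ t + B := by omega
        _ ≤ 3 * n.factorial * (t + B) := Nat.le_mul_of_pos_left _ (by positivity)
    have hmB : m ^ 2 < B := by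
      rw [hB]
      nlinarith [Nat.zero_le (n ^ 2), Nat.zero_le (n ^ 2 * m ^ 2)]
    have hN3 : 3 ∣ N := by
      rw [hN, mul_assoc]
      exact dvd_mul_right _ _
    obtain ⟨e1, e2⟩ := explicit hm hN3 (by omega : m ^ 2 < N)
    show ∀ x : ℕ, x ≤ n → HasElement (-4 * (4 * ((3 * n.factorial * (t + B) : ℕ) : ℤ) ^ m - 1) ^ m + (x : ℤ) ^ 2) m
    rw [← hN]
    intro x hx
    rcases Nat.eq_zero_or_pos x with h0 | h0
    · rw [h0]
      simpa using e1
    · have hN0 : 0 < N := by omega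
      have hNm : N ≤ N ^ m := Nat.le_self_pow (by omega) N
      refine e2 x h0 ?_ ?_
      · have hxN : x ∣ N := by
          rw [hN]
          exact ((Nat.dvd_factorial h0 hx).mul_left 3).mul_right _
        have hx1 : x ∣ (4 * N ^ m - 1) + 1 := by
          rw [Nat.sub_add_cancel (by omega)]
          exact (hxN.trans (dvd_pow_self N (by omega))).mul_left 4
        exact Nat.Coprime.coprime_dvd_left hx1 (by simp)
      · have h7 : x ^ 2 * m ^ 2 < B := by
          have h8 : x ^ 2 ≤ n ^ 2 := Nat.pow_le_pow_left hx 2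
          have h9 : x ^ 2 * m ^ 2 ≤ n ^ 2 * m ^ 2 := Nat.mul_le_mul_right _ h8
          rw [hB]
          nlinarith [Nat.zero_le (n ^ 2), Nat.zero_le (m ^ 2)]
        omega

end Pool.Agent.Results.MP_3650db_nt.SquareShifts
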